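import Pool.Agent.H90.EH.Targets

/-!
# GBI: the good bases are bases (board hst_modules)
-/

set_option autoImplicit false

namespace Pool.Agent.H94.EH

open Finset Pool.Agent.H90.EH
open scoped Classical

theorem GB_sum (h1 : T_INJ) {V : Type} [AddCommGroup V] [Module ℚ V] {A AF BF : Finset V}
    {k p : ℕ} {v : Fin k → Fin p → V} (i : Fin k → Fin p) (hp : 2 ≤ p) (hO : Orb A AF k p v)
    (hB : IsB AF BF) (c : V → ℚ) :
    ∑ b ∈ GB BF v i, c b • b = ∑ b ∈ BF, c b • b +
      ∑ j, ∑ i', (if i' ≠ i j then c (v j i') else 0) • v j i' := by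
  obtain ⟨hinj, hnot⟩ := h1 V A AF k p v hp hO
  unfold GB
  rw [sum_union, sum_image]
  · congr 1
    rw [sum_filter, Fintype.sum_prod_type]
    refine sum_congr rfl fun j _ => sum_congr rfl fun i' _ => ?_
    dsimp only
    split_ifs <;> simp
  · rintro ⟨j, a⟩ _ ⟨j', a'⟩ _ h
    obtain ⟨h1, h2⟩ := hinj j a j' a' h
    rw [h1, h2]
  · rw [disjoint_left]
    intro b hb hb'
    obtain ⟨⟨j, a⟩, -, rfl⟩ := mem_image.1 hb'
    exact hnot j a (sub_Sp (hB.1 hb))

theorem pf_GBI (h1 : T_INJ) : T_GBI := by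
  intro V _ _ A AF BF k p v i hp hO hB
  refine ⟨?_, ?_, ?_⟩
  · unfold GB
    refine union_subset (hB.1.trans hO.sub) ?_
    intro b hb
    obtain ⟨⟨j, a⟩, -, rfl⟩ := mem_image.1 hb
    exact hO.mem j a
  · intro c hc
    rw [GB_sum h1 i hp hO hB] at hc
    have hrow := hO.ind (fun j i' => if i' ≠ i j then c (v j i') else 0) (by
      have : ∑ j, ∑ i', (if i' ≠ i j then c (v j i') else 0) • v j i' =
          - ∑ b ∈ BF, c b • b := by
        rw [eq_neg_iff_add_eq_zero, add_comm]; exact hc
      rw [this]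
      exact Submodule.neg_mem _ (Submodule.sum_mem _ fun b hb =>
        Submodule.smul_mem _ _ (sub_Sp (hB.1 hb))))
    have hz : ∀ j i', i' ≠ i j → c (v j i') = 0 := by
      intro j i' hi
      have := hrow j i' (i j)
      simpa [hi] using this
    have hz' : ∑ j, ∑ i', (if i' ≠ i j then c (v j i') else 0) • v j i' = 0 := by
      refine sum_eq_zero fun j _ => sum_eq_zero fun i' _ => ?_
      by_cases hi : i' ≠ i j
      · rw [if_pos hi, hz j i' hi, zero_smul]
      · rw [if_neg hi, zero_smul]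
    rw [hz', add_zero] at hc
    have hBF := hB.2.1 c hc
    intro b hb
    unfold GB at hb
    rcases mem_union.1 hb with hb | hb
    · exact hBF b hb
    · obtain ⟨⟨j, a⟩, hx, rfl⟩ := mem_image.1 hb
      exact hz j a (mem_filter.1 hx).2
  · intro a ha
    obtain ⟨e, he⟩ := hO.span a ha
    have hFB : Sp AF ≤ Sp (GB BF v i) := by
      rw [hB.sp]
      exact Sp_mono subset_union_left
    have hne : ∀ j i', i' ≠ i j → v j i' ∈ Sp (GB BF v i) := by
      intro j i' hi
      apply sub_Sp
      unfold GB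
      exact mem_union_right _ (mem_image.2 ⟨(j, i'), mem_filter.2 ⟨mem_univ _, hi⟩, rfl⟩)
    have hv : ∀ j i', v j i' ∈ Sp (GB BF v i) := by
      intro j i'
      by_cases hi : i' = i j
      · subst hi
        have h2 : v j (i j) = ∑ i', v j i' - ∑ i' ∈ univ.erase (i j), v j i' := by
          rw [eq_sub_iff_add_eq]
          exact add_sum_erase univ (fun i' => v j i') (mem_univ (i j))
        rw [h2]
        refine Submodule.sub_mem _ (hFB (cone_sp (hO.sum j))) (Submodule.sum_mem _ ?_)
        intro i' hi'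
        exact hne j i' (mem_erase.1 hi').1
      · exact hne j i' hi
    have h3 : a = (a - ∑ j, ∑ i', e j i' • v j i') + ∑ j, ∑ i', e j i' • v j i' := by abel
    rw [h3]
    exact Submodule.add_mem _ (hFB he) (Submodule.sum_mem _ fun j _ => Submodule.sum_mem _
      fun i' _ => Submodule.smul_mem _ _ (hv j i'))

end Pool.Agent.H94.EH
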