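import Pool.Agent.H90.EH.Targets

/-!
# KI: the main inequality (board hst_modules)
-/

set_option autoImplicit false

namespace Pool.Agent.H94.EH

open Finset Pool.Agent.H90.EH
open scoped Classical

theorem GB_inj (h6 : T_INJ) {V : Type} [AddCommGroup V] [Module ℚ V] {A AF : Finset V}
    {k p : ℕ} {v : Fin k → Fin p → V} (hp : 2 ≤ p) (hO : Orb A AF k p v)
    {BF BF' : Finset V} {i i' : Fin k → Fin p} (hB : BF ⊆ AF) (hB' : BF' ⊆ AF)
    (h : GB BF v i = GB BF' v i') : BF = BF' ∧ i = i' := by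
  obtain ⟨hinj, hnot⟩ := h6 V A AF k p v hp hO
  have key : ∀ (C : Finset V) (s : Fin k → Fin p), C ⊆ AF → ∀ x, x ∈ C ↔
      x ∈ GB C v s ∧ x ∈ Sp AF := by
    intro C s hC x
    constructor
    · intro hx
      exact ⟨by unfold GB; exact mem_union_left _ hx, sub_Sp (hC hx)⟩
    · rintro ⟨hx, hs⟩
      unfold GB at hx
      rcases mem_union.1 hx with hx | hx
      · exact hx
      · obtain ⟨⟨j, a⟩, -, rfl⟩ := mem_image.1 hx
        exact absurd hs (hnot j a)
  have key2 : ∀ (C : Finset V) (s : Fin k → Fin p), C ⊆ AF → ∀ j a,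
      v j a ∈ GB C v s ↔ a ≠ s j := by
    intro C s hC j a
    constructor
    · intro hx
      unfold GB at hx
      rcases mem_union.1 hx with hx | hx
      · exact absurd (sub_Sp (hC hx)) (hnot j a)
      · obtain ⟨⟨j', a'⟩, hm, he⟩ := mem_image.1 hx
        obtain ⟨e1, e2⟩ := hinj j' a' j a he
        have := (mem_filter.1 hm).2
        dsimp only at this
        rw [← e1, ← e2]
        exact this
    · intro ha
      unfold GB
      exact mem_union_right _ (mem_image.2 ⟨(j, a), mem_filter.2 ⟨mem_univ _, ha⟩, rfl⟩)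
  constructor
  · ext x
    rw [key BF i hB x, key BF' i' hB' x, h]
  · funext j
    by_contra hne
    have h1 := (key2 BF i hB j (i j)).not.2 (by simp)
    have h2 := (key2 BF' i' hB' j (i j)).2 hne
    rw [h] at h1
    exact h1 h2

theorem pf_KI (h1 : T_GDT) (h2 : T_DIR) (h3 : T_SUM) (h4 : T_CIN) (h5 : T_PHK) (h6 : T_INJ) :
    T_KI := by
  intro V _ _ Λ ht A AF k p v hp hLF hO
  have hLFF : LF Λ ht AF := by
    refine ⟨fun a ha => hLF.1 a (hO.sub ha), fun m => (hLF.2 m).subset ?_⟩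
    rintro x ⟨hx, h'⟩
    exact ⟨cone_mono (fun a ha => cone_mem (hO.sub ha)) hx, h'⟩
  obtain ⟨w₀, w, hw₀, hw, hG⟩ := h1 V A AF k p v hp hO
  obtain ⟨qF, q, e, hqF, hGF, hq, hGq, hD⟩ := h2 V A AF k p v hp hO
  rw [h3 V Λ ht AF w₀ qF hLFF hw₀ hqF hGF, h3 V Λ ht A w q hLF hw hq hGq,
    ← h5 k p e hD.1]
  intro m
  set c : (Fin k → Fin p) → ℕ := fun i => ∑ j, (univ.filter (fun i' => e j i' < e j (i j))).card
    with hc
  have hsub : ∀ BF ∈ Tri AF w₀, BF ⊆ AF := fun BF hBF => (mem_filter.1 hBF).2.1.1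
  have hIsB : ∀ BF ∈ Tri AF w₀, IsB AF BF := fun BF hBF => (mem_filter.1 hBF).2.1
  rw [sum_mul_sum, ← sum_product', map_sum, map_sum]
  calc ∑ x ∈ Tri AF w₀ ×ˢ (univ : Finset (Fin k → Fin p)), PowerSeries.coeff m
          (ser Λ ht (Bx x.1 qF) * (PowerSeries.X : PowerSeries ℤ) ^ c x.2)
      ≤ ∑ x ∈ Tri AF w₀ ×ˢ (univ : Finset (Fin k → Fin p)),
          (cnt Λ ht (Bx (GB x.1 v x.2) q) m : ℤ) := by
        refine sum_le_sum fun x hx => ?_
        have hx1 := (mem_product.1 hx).1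
        rw [PowerSeries.coeff_mul_X_pow']
        split_ifs with hm
        · unfold ser
          rw [PowerSeries.coeff_mk]
          have := h4 V Λ ht A AF x.1 k p v qF q e x.2 hp hLF hO hGF hGq hD (hIsB x.1 hx1)
            (m - c x.2)
          rw [show m - c x.2 + ∑ j, (univ.filter (fun i' => e j i' < e j (x.2 j))).card = m from
            Nat.sub_add_cancel hm] at this
          exact_mod_cast this
        · positivity
    _ = ∑ B ∈ (Tri AF w₀ ×ˢ (univ : Finset (Fin k → Fin p))).image (fun x => GB x.1 v x.2),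
          (cnt Λ ht (Bx B q) m : ℤ) := by
        rw [sum_image]
        rintro ⟨B, i⟩ hx ⟨B', i'⟩ hx' h
        obtain ⟨e1, e2⟩ := GB_inj h6 hp hO (hsub B (mem_product.1 hx).1)
          (hsub B' (mem_product.1 hx').1) h
        exact Prod.ext e1 e2
    _ ≤ ∑ B ∈ Tri A w, (cnt Λ ht (Bx B q) m : ℤ) := by
        refine sum_le_sum_of_subset_of_nonneg ?_ fun _ _ _ => by positivity
        intro B hB
        obtain ⟨x, hx, rfl⟩ := mem_image.1 hB
        exact hG x.1 (mem_product.1 hx).1 x.2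
    _ = ∑ B ∈ Tri A w, PowerSeries.coeff m (ser Λ ht (Bx B q)) := by
        refine sum_congr rfl fun B _ => ?_
        unfold ser
        rw [PowerSeries.coeff_mk]

end Pool.Agent.H94.EH
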