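import Pool.Agent.H90.EH.Targets

/-!
# RKO: the rank (board hst_modules)
-/

set_option autoImplicit false

namespace Pool.Agent.H94.EH

open Finset Pool.Agent.H90.EH
open scoped Classical

theorem card_ne {k p : ℕ} (i : Fin k → Fin p) :
    (univ.filter (fun x : Fin k × Fin p => x.2 ≠ i x.1)).card = k * (p - 1) := by
  rw [card_filter, Fintype.sum_prod_type]
  have : ∀ j : Fin k, ∑ y : Fin p, (if (j, y).2 ≠ i (j, y).1 then 1 else 0) = p - 1 := by
    intro j
    dsimp only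
    rw [← card_filter, filter_ne', card_erase_of_mem (mem_univ _), card_univ, Fintype.card_fin]
  rw [sum_congr rfl fun j _ => this j]
  simp

theorem GB_card (h1 : T_INJ) {V : Type} [AddCommGroup V] [Module ℚ V] {A AF BF : Finset V}
    {k p : ℕ} {v : Fin k → Fin p → V} (i : Fin k → Fin p) (hp : 2 ≤ p) (hO : Orb A AF k p v)
    (hB : IsB AF BF) : (GB BF v i).card = BF.card + k * (p - 1) := by
  obtain ⟨hinj, hnot⟩ := h1 V A AF k p v hp hO
  unfold GB
  rw [card_union_of_disjoint, card_image_of_injOn, card_ne]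
  · rintro ⟨j, a⟩ _ ⟨j', a'⟩ _ h
    obtain ⟨h1, h2⟩ := hinj j a j' a' h
    rw [h1, h2]
  · rw [disjoint_left]
    intro b hb hb'
    obtain ⟨⟨j, a⟩, -, rfl⟩ := mem_image.1 hb'
    exact hnot j a (sub_Sp (hB.1 hb))

theorem pf_RKO (h1 : T_INJ) (h2 : T_GBI) (h3 : T_EXT) (h4 : T_CRD) : T_RKO := by
  intro V _ _ A AF k p v hp hO
  obtain ⟨BF, -, hB⟩ := h3 V AF ∅ (empty_subset _) (fun c _ b hb => absurd hb (notMem_empty b))
  let i : Fin k → Fin p := fun _ => ⟨0, by omega⟩
  rw [← h4 V A _ (h2 V A AF BF k p v i hp hO hB), ← h4 V AF BF hB]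
  exact GB_card h1 i hp hO hB

end Pool.Agent.H94.EH
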